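import Pool.Agent.Y926.VR.Final

/-!
# Admitting Visser's rules: `Σ₁`-hardness, for all properties in an interval, in 18 variables

`num` is a bijective Goedel numbering of the formulas, `Hard P` says that every r.e. set of natural
numbers is many-one reducible to the set of (numbers of) formulas `A` with `P A`, by a computable
function all of whose values contain at most the variables `p₀, …, p₁₇` and axiomatize logics of top
width at most two (`SmallForm`). Hence (last part) the set is not decidable, and its complement is not
even recursively enumerable, inside every class of formulas that contains `SmallForm`.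
-/

set_option autoImplicit false

namespace Pool.Agent.Results.MP_47f674_lc.SigmaOneHard

open Pool.Agent.W898.VR Pool.Agent.Y926.VR

theorem result :
    Function.Bijective num ∧
    -- `L_A` admits every rule that is admissible in IPC
    Hard AdmitsAll ∧
    -- `L_A` admits all the rules `V_{n+1}`, `n ∈ S`
    (∀ S : Set ℕ, S.Nonempty → Hard (fun A => ∀ n ∈ S, Admissible A (vPrem n) (vConc n))) ∧
    -- every property between `L_A = L` and admissibility of the restricted rule `V₁⁻` in `L_A`
    (∃ L : Form, AdmitsAll L ∧ ∀ P : Form → Prop,
      (∀ A, (∀ a, Logic A a ↔ Logic L a) → P A) →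
      (∀ A, P A → Admissible A rPrem rConc) → Hard P) ∧
    -- consequences of hardness
    (∀ P C : Form → Prop, Hard P → (∀ A, SmallForm A → C A) →
      ¬ ComputablePred (fun k : ℕ => ∃ A : Form, num A = k ∧ C A ∧ P A) ∧
      ¬ REPred (fun k : ℕ => ∃ A : Form, num A = k ∧ C A ∧ ¬ P A)) :=
  ⟨num_bij, hard_admitsAll, hard_rules,
    ⟨Lst, admitsAll_Lst, fun _ h1 h2 => sandwich h1 (fun A h => Or.inl (h2 A h))⟩,
    fun _ C h hC => ⟨h.not_computable C hC, h.not_re C hC⟩⟩

end Pool.Agent.Results.MP_47f674_lc.SigmaOneHard
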